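import Pool.Agent.H15.Ps2

open Pool.Agent.H41.PropS

theorem Pool.Agent.Results.MP_0279ce_an.Semisimple.result :
    ∃ (A : Type) (_ : NonUnitalNormedRing A) (_ : NormedSpace ℂ A) (_ : IsScalarTower ℂ A A)
      (_ : SMulCommClass ℂ A A) (_ : CompleteSpace A),
      rad A = {0} ∧ Sq A = Set.univ ∧ ¬ HasS A :=
  Pool.Agent.H15.Ps.main
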